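import Pool.Agent.U831.JE.Disc
import Pool.Agent.H43R2.Cplx.EMeas

/-!
# At most one line of directions is badly distributed

Two integer directions `w = (b, c)`, `w' = (b', c')` which are not proportional and real `t`. If the
sequences `n (b e + c t)` and `n (b' e + c' t)` were both badly distributed at the same scale `N`,
both numbers would have rational approximations with small denominators (`disc_le`); eliminating `t`
we would get an approximation of `e` which contradicts its irrationality measure.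
-/

set_option autoImplicit false

namespace Pool.Agent.U831.JE

open Finset

/-- The height of an integer direction. -/
def ht (b c : ℤ) : ℤ := max |b| |c|

/-- The elimination step. -/
lemma elim (t : ℝ) (N : ℕ) (hN : 1 ≤ N) (b c b' c' : ℤ) (hΔ : b * c' - b' * c ≠ 0)
    (q q' : ℕ) (p p' : ℤ) (A A' : ℝ) (hq : 1 ≤ q) (hq' : 1 ≤ q') (hA : 1 ≤ A) (hA' : 1 ≤ A')
    (h : |q * (b * Real.exp 1 + c * t) - p| ≤ A / N)
    (h' : |q' * (b' * Real.exp 1 + c' * t) - p'| ≤ A' / N) :
    ∃ n : ℕ, (2 : ℝ) ^ n < 16 * (ht b c * ht b' c') * (q * q') ∧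
      (N : ℝ) ≤ 16 * (4 * n + 3) * ((ht b c * q) * (ht b' c' * q')) *
        ((ht b c * (q * A')) + (ht b' c' * (q' * A))) := by
  have hN0 : (0 : ℝ) < N := by exact_mod_cast hN
  have hq0 : (0 : ℝ) < q := by exact_mod_cast hq
  have hq'0 : (0 : ℝ) < q' := by exact_mod_cast hq'
  set Δ : ℤ := b * c' - b' * c with hΔdef
  set H : ℝ := (ht b c : ℝ) with hH
  set H' : ℝ := (ht b' c' : ℝ) with hH'
  have hbH : |(b : ℝ)| ≤ H := by
    have : |b| ≤ ht b c := le_max_left _ _
    rw [hH]; exact_mod_cast this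
  have hcH : |(c : ℝ)| ≤ H := by
    have : |c| ≤ ht b c := le_max_right _ _
    rw [hH]; exact_mod_cast this
  have hbH' : |(b' : ℝ)| ≤ H' := by
    have : |b'| ≤ ht b' c' := le_max_left _ _
    rw [hH']; exact_mod_cast this
  have hcH' : |(c' : ℝ)| ≤ H' := by
    have : |c'| ≤ ht b' c' := le_max_right _ _
    rw [hH']; exact_mod_cast this
  have hH0 : 0 ≤ H := (abs_nonneg _).trans hbH
  have hH'0 : 0 ≤ H' := (abs_nonneg _).trans hbH'
  have hΔle : |(Δ : ℝ)| ≤ 2 * (H * H') := by
    have e : (Δ : ℝ) = b * c' + (-(b' * c)) := by rw [hΔdef]; push_cast; ring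
    rw [e]
    refine (abs_add_le _ _).trans ?_
    rw [abs_neg, abs_mul, abs_mul]
    have h1 : |(b : ℝ)| * |(c' : ℝ)| ≤ H * H' := mul_le_mul hbH hcH' (abs_nonneg _) hH0
    have h2 : |(b' : ℝ)| * |(c : ℝ)| ≤ H' * H := mul_le_mul hbH' hcH (abs_nonneg _) hH'0
    linarith
  -- the integer
  have hQ1 : 1 ≤ Δ.natAbs * q * q' := by
    have : 0 < Δ.natAbs := Int.natAbs_pos.mpr hΔ
    have := Nat.mul_pos (Nat.mul_pos this (show 0 < q by omega)) (show 0 < q' by omega)
    omega
  obtain ⟨n, hn1, hn2⟩ := Pool.Agent.H43R2.Cplx.EMeas.lower (Δ.natAbs * q * q') hQ1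
    (Δ.sign * (c' * q' * p - c * q * p'))
  have hcast : ((Δ.natAbs * q * q' : ℕ) : ℝ) = |(Δ : ℝ)| * q * q' := by
    push_cast
    rw [Nat.cast_natAbs]
    push_cast
    rfl
  have hsign : (Δ.sign : ℝ) * (Δ : ℝ) = |(Δ : ℝ)| := by
    have : Δ.sign * Δ = |Δ| := Int.sign_mul_self_eq_abs Δ
    exact_mod_cast this
  have hs1 : |(Δ.sign : ℝ)| = 1 := by
    have : |Δ.sign| = 1 := by
      rw [Int.abs_eq_natAbs, Int.natAbs_sign_of_ne_zero hΔ]
      rfl
    exact_mod_cast this
  have hup : |((Δ.natAbs * q * q' : ℕ) : ℝ) * Real.exp 1 -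
      ((Δ.sign * (c' * q' * p - c * q * p') : ℤ) : ℝ)| ≤
      (H' * (q' * A) + H * (q * A')) / N := by
    have e : ((Δ.natAbs * q * q' : ℕ) : ℝ) * Real.exp 1 -
      ((Δ.sign * (c' * q' * p - c * q * p') : ℤ) : ℝ) =
      Δ.sign * ((c' * q') * (q * (b * Real.exp 1 + c * t) - p) +
        (-(c * q)) * (q' * (b' * Real.exp 1 + c' * t) - p')) := by
      rw [hcast, ← hsign]
      have : (Δ : ℝ) = b * c' - b' * c := by rw [hΔdef]; push_cast; ring
      rw [this]
      push_cast
      ring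
    rw [e, abs_mul, hs1, one_mul]
    refine (abs_add_le _ _).trans ?_
    simp only [abs_mul, abs_neg, Nat.abs_cast]
    have h1 : |(c' : ℝ)| * q' * |q * (b * Real.exp 1 + c * t) - p| ≤ H' * q' * (A / N) :=
      mul_le_mul (mul_le_mul_of_nonneg_right hcH' hq'0.le) h (abs_nonneg _) (by positivity)
    have h2 : |(c : ℝ)| * q * |q' * (b' * Real.exp 1 + c' * t) - p'| ≤ H * q * (A' / N) :=
      mul_le_mul (mul_le_mul_of_nonneg_right hcH hq0.le) h' (abs_nonneg _) (by positivity)
    calc _ ≤ H' * q' * (A / N) + H * q * (A' / N) := add_le_add h1 h2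
      _ = _ := by ring
  have hQR : (1 : ℝ) ≤ ((Δ.natAbs * q * q' : ℕ) : ℝ) := by exact_mod_cast hQ1
  have hQle : ((Δ.natAbs * q * q' : ℕ) : ℝ) ≤ 2 * (H * H') * (q * q') := by
    rw [hcast, mul_assoc]
    exact mul_le_mul_of_nonneg_right hΔle (by positivity)
  refine ⟨n, ?_, ?_⟩
  · have : ((2 : ℝ) ^ n) < 8 * ((Δ.natAbs * q * q' : ℕ) : ℝ) := by exact_mod_cast hn1
    nlinarith
  · have h3 := hn2.trans hup
    rw [div_le_div_iff₀ (by positivity) hN0, one_mul] at h3
    have h4 : 0 ≤ H' * (q' * A) + H * (q * A') := by positivity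
    calc (N : ℝ) ≤ (H' * (q' * A) + H * (q * A')) *
          (8 * (4 * n + 3) * ((Δ.natAbs * q * q' : ℕ) : ℝ)) := h3
      _ ≤ (H' * (q' * A) + H * (q * A')) * (8 * (4 * n + 3) * (2 * (H * H') * (q * q'))) := by
          apply mul_le_mul_of_nonneg_left _ h4
          apply mul_le_mul_of_nonneg_left hQle (by positivity)
      _ = _ := by ring

/-- The sequence `n α` (`n < N`) modulo one, with any shift `γ`, has discrepancy at most `D`. -/
def DiscLe (α : ℝ) (N : ℕ) (D : ℝ) : Prop :=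
  ∀ γ u v : ℝ, 0 ≤ u → u ≤ v → v ≤ 1 → |(cnt α γ u v N : ℝ) - (v - u) * N| ≤ D * N

/-- The rate. -/
noncomputable def rate (N : ℕ) : ℝ := (Real.log N / N) ^ ((1 : ℝ) / 3)

lemma log_two_gt' : (0.69 : ℝ) < Real.log 2 := by
  have := Real.log_two_gt_d9
  linarith

lemma log_ge (N : ℕ) (hN : 2 ≤ N) : (0.69 : ℝ) < Real.log N := by
  have h : Real.log 2 ≤ Real.log N :=
    Real.log_le_log (by norm_num) (by exact_mod_cast hN)
  linarith [log_two_gt']

lemma rate_pos (N : ℕ) (hN : 2 ≤ N) : 0 < rate N := by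
  have := log_ge N hN
  have hN0 : (0 : ℝ) < N := by exact_mod_cast (by omega : 0 < N)
  unfold rate
  positivity

lemma rate_cube (N : ℕ) (hN : 2 ≤ N) : rate N ^ 3 = Real.log N / N := by
  have := log_ge N hN
  have hN0 : (0 : ℝ) < N := by exact_mod_cast (by omega : 0 < N)
  unfold rate
  rw [← Real.rpow_natCast, ← Real.rpow_mul (by positivity)]
  norm_num

lemma rate_le_one (N : ℕ) (hN : 2 ≤ N) : rate N ≤ 1 := by
  have h := rate_cube N hN
  have hN0 : (0 : ℝ) < N := by exact_mod_cast (by omega : 0 < N)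
  have h1 : Real.log N / N ≤ 1 := by
    rw [div_le_one hN0]
    have := Real.log_le_sub_one_of_pos hN0
    linarith
  by_contra hc
  push Not at hc
  have h2 : 1 < rate N ^ 3 := one_lt_pow₀ hc (by norm_num)
  linarith

/-- `21 √N ≤ 100 rate N * N`. -/
lemma sqrt_le_rate (N : ℕ) (hN : 2 ≤ N) : 21 * Real.sqrt N ≤ 100 * rate N * N := by
  have hN0 : (0 : ℝ) < N := by exact_mod_cast (by omega : 0 < N)
  have hr := rate_pos N hN
  have hr1 := rate_le_one N hN
  have hl := log_ge N hN
  have hc := rate_cube N hN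
  set s := Real.sqrt N with hs
  have hs0 : 0 < s := Real.sqrt_pos.mpr hN0
  have hss : s * s = N := Real.mul_self_sqrt hN0.le
  have hs1 : 1 ≤ s := by
    rw [hs, Real.one_le_sqrt]; exact_mod_cast (by omega : 1 ≤ N)
  -- `(rate * s)^3 = log N * s / ... ≥ 0.69 / s ... `
  have h3 : rate N ^ 3 * N = Real.log N := by rw [hc]; field_simp
  -- rate s >= 1/2
  have h4 : 1 / 2 ≤ rate N * s := by
    by_contra hh
    push Not at hh
    have h5 : rate N ^ 3 * N = (rate N * s) ^ 2 * rate N := by rw [← hss]; ring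
    have h6 : (rate N * s) ^ 2 ≤ (1 / 2) ^ 2 :=
      pow_le_pow_left₀ (by positivity) hh.le 2
    have h7 : (rate N * s) ^ 2 * rate N ≤ (1 / 2) ^ 2 * 1 :=
      mul_le_mul h6 hr1 hr.le (by norm_num)
    have h8 : Real.log N ≤ 1 / 4 := by rw [← h3, h5]; linarith
    linarith
  calc 21 * s ≤ 100 * (1 / 2) * s := by nlinarith
    _ ≤ 100 * (rate N * s) * s := by
        have := mul_le_mul_of_nonneg_right h4 hs0.le
        linarith
    _ = 100 * rate N * (s * s) := by ring
    _ = 100 * rate N * N := by rw [hss]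

/-- From a bad direction: small denominators. -/
lemma small_of_bad (α : ℝ) (N : ℕ) (hN : 2 ≤ N) (h : ℝ) (hh : 1 ≤ h)
    (hbad : ¬ DiscLe α N (200 * h * rate N)) : ∃ (q : ℕ) (p : ℤ) (A : ℝ), 1 ≤ q ∧ 1 ≤ A ∧
      |q * α - p| ≤ A / N ∧ h * (q * A) * (10 * rate N) < 1 := by
  obtain ⟨q, p, A, hq, -, hA, hqp, hd⟩ := disc_le α N (by omega)
  refine ⟨q, p, A, hq, hA, hqp, ?_⟩
  have hN0 : (0 : ℝ) < N := by exact_mod_cast (by omega : 0 < N)
  have hq0 : (0 : ℝ) < q := by exact_mod_cast hq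
  have hA0 : 0 < A := by linarith
  have hr := rate_pos N hN
  unfold DiscLe at hbad
  push Not at hbad
  obtain ⟨γ, u, v, hu, huv, hv, hb⟩ := hbad
  have h1 := hd γ u v hu huv hv
  have h2 := sqrt_le_rate N hN
  have h3 : 100 * rate N * N ≤ 100 * h * rate N * N := by
    have : 0 ≤ 100 * rate N * N := by positivity
    nlinarith
  have h4 : 100 * h * rate N * N < 10 * (N / (q * A)) := by linarith
  have h5 : 10 * ((N : ℝ) / (q * A)) = (10 / (q * A)) * N := by ring
  rw [h5] at h4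
  have h6 : 100 * h * rate N < 10 / (q * A) := lt_of_mul_lt_mul_right h4 hN0.le
  rw [lt_div_iff₀ (by positivity)] at h6
  linarith

/-- **At most one line of badly distributed directions.** -/
theorem two_dirs (t : ℝ) (N : ℕ) (hN : 2 ≤ N) (b c b' c' : ℤ) (hΔ : b * c' - b' * c ≠ 0) :
    DiscLe (b * Real.exp 1 + c * t) N (200 * ht b c * rate N) ∨
      DiscLe (b' * Real.exp 1 + c' * t) N (200 * ht b' c' * rate N) := by
  by_contra hcon
  push Not at hcon
  obtain ⟨hb1, hb2⟩ := hcon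
  have hN0 : (0 : ℝ) < N := by exact_mod_cast (by omega : 0 < N)
  have hr := rate_pos N hN
  have hr1 := rate_le_one N hN
  have hl := log_ge N hN
  have hc := rate_cube N hN
  have hh1 : (1 : ℝ) ≤ ht b c := by
    have : 1 ≤ ht b c := by
      by_contra hh
      have h0 : ht b c ≤ 0 := by omega
      have e1 : |b| ≤ 0 := (le_max_left _ _).trans h0
      have e2 : |c| ≤ 0 := (le_max_right _ _).trans h0
      have e3 : b = 0 := abs_eq_zero.mp (le_antisymm e1 (abs_nonneg _))
      have e4 : c = 0 := abs_eq_zero.mp (le_antisymm e2 (abs_nonneg _))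
      apply hΔ
      rw [e3, e4]; ring
    exact_mod_cast this
  have hh2 : (1 : ℝ) ≤ ht b' c' := by
    have : 1 ≤ ht b' c' := by
      by_contra hh
      have h0 : ht b' c' ≤ 0 := by omega
      have e1 : |b'| ≤ 0 := (le_max_left _ _).trans h0
      have e2 : |c'| ≤ 0 := (le_max_right _ _).trans h0
      have e3 : b' = 0 := abs_eq_zero.mp (le_antisymm e1 (abs_nonneg _))
      have e4 : c' = 0 := abs_eq_zero.mp (le_antisymm e2 (abs_nonneg _))
      apply hΔ
      rw [e3, e4]; ring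
    exact_mod_cast this
  obtain ⟨q, p, A, hq, hA, hqp, hs⟩ := small_of_bad _ N hN _ hh1 hb1
  obtain ⟨q', p', A', hq', hA', hqp', hs'⟩ := small_of_bad _ N hN _ hh2 hb2
  obtain ⟨n, hn1, hn2⟩ := elim t N (by omega) b c b' c' hΔ q q' p p' A A' hq hq' hA hA' hqp hqp'
  have hq0 : (0 : ℝ) < q := by exact_mod_cast hq
  have hq'0 : (0 : ℝ) < q' := by exact_mod_cast hq'
  have hA0 : 0 < A := by linarith
  have hA'0 : 0 < A' := by linarith
  set h : ℝ := (ht b c : ℝ) with hhdef
  set h' : ℝ := (ht b' c' : ℝ) with hh'def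
  have hh0 : 0 < h := by linarith
  have hh'0 : 0 < h' := by linarith
  -- `Z = 1 / (10 rate)`
  set Z : ℝ := 1 / (10 * rate N) with hZ
  have hZ0 : 0 < Z := by positivity
  have z1 : h * (q * A) < Z := by rw [hZ, lt_div_iff₀ (by positivity)]; exact hs
  have z2 : h' * (q' * A') < Z := by rw [hZ, lt_div_iff₀ (by positivity)]; exact hs'
  have z3 : h * q < Z := by
    refine lt_of_le_of_lt ?_ z1
    rw [← mul_assoc]
    exact le_mul_of_one_le_right (by positivity) hA
  have z4 : h' * q' < Z := by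
    refine lt_of_le_of_lt ?_ z2
    rw [← mul_assoc]
    exact le_mul_of_one_le_right (by positivity) hA'
  have hZ3 : Z ^ 3 = N / (1000 * Real.log N) := by
    rw [hZ, div_pow, mul_pow, hc]
    field_simp
    norm_num
  -- bound for `n`
  have hlN : 0 < Real.log N := by linarith
  have n1 : (2 : ℝ) ^ n < N := by
    have e1 : h * h' * (q * q') = (h * q) * (h' * q') := by ring
    have e2 : (h * q) * (h' * q') < Z * Z := mul_lt_mul'' z3 z4 (by positivity) (by positivity)
    have e3 : 16 * (h * h') * (q * q') < 16 * (Z * Z) := by nlinarith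
    have e4 : 16 * (Z * Z) ≤ N := by
      have e5 : Z * Z = 1 / (100 * rate N ^ 2) := by rw [hZ]; field_simp; norm_num
      have e6 : rate N ^ 3 ≤ rate N ^ 2 := pow_le_pow_of_le_one hr.le hr1 (by norm_num)
      have e7 : rate N ^ 3 * N = Real.log N := by rw [hc]; field_simp
      rw [e5]
      rw [show (16 : ℝ) * (1 / (100 * rate N ^ 2)) = 16 / (100 * rate N ^ 2) by ring]
      rw [div_le_iff₀ (by positivity)]
      have e8 : rate N ^ 3 * N ≤ rate N ^ 2 * N := mul_le_mul_of_nonneg_right e6 hN0.le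
      nlinarith
    linarith
  have n2 : (n : ℝ) * Real.log 2 ≤ Real.log N := by
    have := Real.log_le_log (by positivity) n1.le
    rwa [Real.log_pow] at this
  have n3 : 4 * (n : ℝ) + 3 ≤ 11 * Real.log N := by
    have h2 := log_two_gt'
    have hn0 : (0 : ℝ) ≤ n := Nat.cast_nonneg n
    have : (n : ℝ) * 0.69 ≤ n * Real.log 2 := mul_le_mul_of_nonneg_left h2.le hn0
    nlinarith
  -- the contradiction
  have m1 : ((h * q) * (h' * q')) * ((h * (q * A')) + (h' * (q' * A))) < 2 * Z ^ 3 := by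
    have e1 : ((h * q) * (h' * q')) * ((h * (q * A')) + (h' * (q' * A))) =
        (h * q) * (h * q) * (h' * (q' * A')) + (h' * q') * (h' * q') * (h * (q * A)) := by ring
    have e2 : (h * q) * (h * q) < Z * Z := mul_lt_mul'' z3 z3 (by positivity) (by positivity)
    have e3 : (h' * q') * (h' * q') < Z * Z := mul_lt_mul'' z4 z4 (by positivity) (by positivity)
    have e4 : (h * q) * (h * q) * (h' * (q' * A')) < Z * Z * Z :=
      mul_lt_mul'' e2 z2 (by positivity) (by positivity)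
    have e5 : (h' * q') * (h' * q') * (h * (q * A)) < Z * Z * Z :=
      mul_lt_mul'' e3 z1 (by positivity) (by positivity)
    rw [e1]
    calc _ < Z * Z * Z + Z * Z * Z := add_lt_add e4 e5
      _ = 2 * Z ^ 3 := by ring
  have m2 : (N : ℝ) ≤ 16 * (4 * n + 3) * (2 * Z ^ 3) := by
    refine hn2.trans ?_
    rw [mul_assoc (16 * (4 * (n : ℝ) + 3))]
    exact mul_le_mul_of_nonneg_left m1.le (by positivity)
  have m3 : 16 * (4 * (n : ℝ) + 3) * (2 * Z ^ 3) ≤ 16 * (11 * Real.log N) * (2 * Z ^ 3) := by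
    apply mul_le_mul_of_nonneg_right _ (by positivity)
    linarith
  have m4 : 16 * (11 * Real.log N) * (2 * Z ^ 3) = (352 / 1000) * N := by
    rw [hZ3]
    field_simp
    norm_num
  linarith

end Pool.Agent.U831.JE
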