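import Pool.Agent.U831.JE.Joint
import Pool.Agent.TH456.TM.Close
import Pool.Agent.TH456.TM.Inst

/-!
# The values of the Gamma function at `z` and `1 - z`
-/

set_option autoImplicit false

namespace Pool.Agent.U831.JE

open Finset Polynomial
open Pool.Agent.R356 (JointR jointR_of_rel ev3 ev3_eq)
open Pool.Agent.TH456.TM

/-- the product of two numbers has a transcendence measure -/
theorem joint_of_mul (u v : ℝ) (h : MeasT ((u * v : ℝ) : ℂ)) : JointR u v := by
  have hev : ∀ x : ℝ, ev3 u v ((x : ℝ) : ℂ) (C (C X) * C X + C (C (C (-1))) * X) =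
      ((u * v - x : ℝ) : ℂ) := by
    intro x
    have h2 : ev3 u v (x : ℂ) (C (C X)) = (u : ℂ) := by simp [ev3, evR, σx]
    have h3 : ev3 u v (x : ℂ) (C X) = (v : ℂ) := by simp [ev3, evR]
    have h4 : ev3 u v (x : ℂ) X = (x : ℂ) := by simp [ev3]
    have h5 : ev3 u v (x : ℂ) (C (C (C (-1)))) = -1 := by simp [ev3, evR, σx]
    rw [map_add, map_mul, map_mul, h2, h3, h4, h5]
    push_cast; ring
  refine jointR_of_rel _ h u v ⟨C (C X) * C X + C (C (C (-1))) * X, ?_,
    ((u * v + 1 : ℝ) : ℂ), ?_⟩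
  · rw [hev]; simp
  · rw [hev]; norm_num

/-- `sin (π r)` is algebraic for rational `r`. -/
lemma sin_alg (r : ℚ) : IsAlgebraic ℤ ((Real.sin (Real.pi * r) : ℝ) : ℂ) := by
  set z : ℂ := Complex.exp (Real.pi * r * Complex.I) with hz
  have hden : (r.den : ℂ) ≠ 0 := by exact_mod_cast r.den_nz
  have hz1 : z ^ (2 * r.den) = 1 := by
    rw [hz, ← Complex.exp_nat_mul, Complex.exp_eq_one_iff]
    refine ⟨r.num, ?_⟩
    have : (r : ℂ) = r.num / r.den := by
      conv_lhs => rw [← Rat.num_div_den r]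
      push_cast; rfl
    push_cast
    rw [this]
    field_simp
  have hzi : IsIntegral ℤ z := by
    refine ⟨X ^ (2 * r.den) - 1, monic_X_pow_sub_C 1 (by have := r.den_pos; omega), ?_⟩
    simp [hz1]
  have hz0 : z ≠ 0 := Complex.exp_ne_zero _
  have hzinv : IsIntegral ℤ z⁻¹ := by
    have : z⁻¹ = z ^ (2 * r.den - 1) := by
      have hp := r.den_pos
      apply inv_eq_of_mul_eq_one_left
      rw [← pow_succ, ← hz1]
      congr 1; omega
    rw [this]
    exact hzi.pow _
  have hI : IsIntegral ℤ Complex.I := by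
    refine ⟨X ^ 2 + 1, monic_X_pow_add_C 1 (by norm_num), ?_⟩
    simp
  have h2 : IsAlgebraic ℤ (2 : ℂ)⁻¹ := by
    have h3 : IsAlgebraic ℤ ((2 : ℤ) : ℂ) := isAlgebraic_algebraMap (R := ℤ) (A := ℂ) (2 : ℤ)
    have h4 : IsAlgebraic ℤ (2 : ℂ) := by exact_mod_cast h3
    exact h4.inv
  have e : ((Real.sin (Real.pi * r) : ℝ) : ℂ) = (z⁻¹ - z) * Complex.I * (2 : ℂ)⁻¹ := by
    rw [Complex.ofReal_sin, Complex.sin, hz, ← Complex.exp_neg]
    push_cast
    rw [show -((Real.pi : ℂ) * r) * Complex.I = -(Real.pi * r * Complex.I) by ring]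
    ring
  rw [e]
  exact (((hzinv.sub hzi).mul hI).isAlgebraic).mul h2

/-- The joint measure of `Γ(r)` and `Γ(1 - r)`. -/
theorem joint_gamma (r : ℚ) (h0 : 0 < r) (h1 : r < 1) :
    JointR (Real.Gamma r) (Real.Gamma (1 - r)) := by
  apply joint_of_mul
  rw [Real.Gamma_mul_Gamma_one_sub]
  have hs : 0 < Real.sin (Real.pi * r) := by
    apply Real.sin_pos_of_pos_of_lt_pi
    · have : (0 : ℝ) < r := by exact_mod_cast h0
      positivity
    · have : (r : ℝ) < 1 := by exact_mod_cast h1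
      nlinarith [Real.pi_pos]
  have h := sin_alg r
  have hne : ((Real.sin (Real.pi * r) : ℝ) : ℂ) ≠ 0 := by exact_mod_cast hs.ne'
  have := measT_mul_alg measT_pi ((Real.sin (Real.pi * r) : ℝ) : ℂ)⁻¹ ?_ (inv_ne_zero hne)
  · push_cast at this ⊢
    rw [div_eq_mul_inv]
    exact this
  · exact h.inv

lemma sin_pos' (r : ℚ) (h0 : 0 < r) (h1 : r < 1) : 0 < Real.sin (Real.pi * r) := by
  apply Real.sin_pos_of_pos_of_lt_pi
  · have : (0 : ℝ) < r := by exact_mod_cast h0
    positivity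
  · have : (r : ℝ) < 1 := by exact_mod_cast h1
    nlinarith [Real.pi_pos]

lemma zpow_sum' {ι : Type*} (S : Finset ι) (x : ℝ) (hx : x ≠ 0) (m : ι → ℤ) :
    x ^ (∑ i ∈ S, m i) = ∏ i ∈ S, x ^ m i := by
  classical
  induction S using Finset.induction_on with
  | empty => simp
  | insert a S ha ih => rw [sum_insert ha, prod_insert ha, zpow_add₀ hx, ih]

lemma alg_zpow (x : ℂ) (hx : IsAlgebraic ℤ x) (m : ℤ) : IsAlgebraic ℤ (x ^ m) := by
  obtain ⟨n, rfl | rfl⟩ := m.eq_nat_or_neg
  · rw [zpow_natCast]; exact hx.pow n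
  · rw [zpow_neg, zpow_natCast]; exact (hx.pow n).inv

lemma alg_prod {ι : Type*} (S : Finset ι) (x : ι → ℂ) (hx : ∀ i, IsAlgebraic ℤ (x i)) :
    IsAlgebraic ℤ (∏ i ∈ S, x i) := by
  classical
  induction S using Finset.induction_on with
  | empty => simpa using isAlgebraic_one
  | insert a S ha ih => rw [prod_insert ha]; exact (hx a).mul ih

/-- **Monomials in Gamma values and the reflected monomials.** -/
theorem joint_monomial {ι : Type*} (S : Finset ι) (r : ι → ℚ) (h0 : ∀ i ∈ S, 0 < r i)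
    (h1 : ∀ i ∈ S, r i < 1) (m : ι → ℤ) (hm : ∑ i ∈ S, m i ≠ 0) :
    JointR (∏ i ∈ S, Real.Gamma (r i) ^ m i) (∏ i ∈ S, Real.Gamma (1 - r i) ^ m i) := by
  apply joint_of_mul
  have e : (∏ i ∈ S, Real.Gamma (r i) ^ m i) * (∏ i ∈ S, Real.Gamma (1 - r i) ^ m i) =
      Real.pi ^ (∑ i ∈ S, m i) * ∏ i ∈ S, (Real.sin (Real.pi * r i))⁻¹ ^ m i := by
    rw [zpow_sum' S _ Real.pi_ne_zero, ← prod_mul_distrib, ← prod_mul_distrib]
    apply prod_congr rfl
    intro i hi
    rw [← mul_zpow, Real.Gamma_mul_Gamma_one_sub, div_eq_mul_inv, mul_zpow]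
  rw [e]
  push_cast
  have h2 : IsAlgebraic ℤ (∏ i ∈ S, ((Real.sin (Real.pi * r i) : ℝ) : ℂ)⁻¹ ^ m i) :=
    alg_prod S _ fun i => alg_zpow _ (sin_alg (r i)).inv _
  have h3 : (∏ i ∈ S, ((Real.sin (Real.pi * r i) : ℝ) : ℂ)⁻¹ ^ m i) ≠ 0 := by
    rw [prod_ne_zero_iff]
    intro i hi
    apply zpow_ne_zero
    apply inv_ne_zero
    exact_mod_cast (sin_pos' (r i) (h0 i hi) (h1 i hi)).ne'
  have := measT_mul_alg (measT_zpow measT_pi _ hm) _ h2 h3
  push_cast at this
  exact this

/-- The values `Γ(a/q)`, `a` prime to `q`. -/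
theorem gamma_half (q : ℕ) (hq : 2 < q) (D : ℕ) : ∃ c : ℝ, 0 < c ∧ ∃ N₀ : ℕ, ∀ N : ℕ, N₀ ≤ N →
    (∀ a : ℕ, 1 ≤ a → a < q → Good D c N (Real.Gamma (a / q)) ∨
      Good D c N (Real.Gamma (1 - a / q))) := by
  classical
  have key : ∀ T : Finset ℕ, (∀ a ∈ T, 1 ≤ a ∧ a < q) →
      ∃ c : ℝ, 0 < c ∧ ∃ N₀ : ℕ, ∀ N : ℕ, N₀ ≤ N → ∀ a ∈ T,
        Good D c N (Real.Gamma (a / q)) ∨ Good D c N (Real.Gamma (1 - a / q)) := by
    intro T
    induction T using Finset.induction_on with
    | empty => intro _; exact ⟨1, one_pos, 0, fun N _ a ha => absurd ha (notMem_empty a)⟩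
    | insert a T ha ih =>
      intro hT
      obtain ⟨c₁, hc₁, N₁, h₁⟩ := ih fun b hb => hT b (mem_insert_of_mem hb)
      have hJ : JointR (Real.Gamma (a / q)) (Real.Gamma (1 - a / q)) := by
        have hqq : (0 : ℚ) < q := by exact_mod_cast (by omega : 0 < q)
        have ha1 := (hT a (mem_insert_self a T)).1
        have ha2 := (hT a (mem_insert_self a T)).2
        have := joint_gamma ((a : ℚ) / q) (div_pos (by exact_mod_cast ha1) hqq)
          (by rw [div_lt_one hqq]; exact_mod_cast ha2)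
        push_cast at this
        exact this
      obtain ⟨c₂, hc₂, N₂, h₂⟩ := joint_good _ _ hJ D
      refine ⟨min c₁ c₂, lt_min hc₁ hc₂, max (max N₁ N₂) 1, fun N hN b hb => ?_⟩
      have hNa : N₁ ≤ N := (le_max_left _ _).trans ((le_max_left _ _).trans hN)
      have hNb : N₂ ≤ N := (le_max_right _ _).trans ((le_max_left _ _).trans hN)
      have hNd : 1 ≤ N := (le_max_right _ _).trans hN
      rcases mem_insert.mp hb with rfl | hb
      · rcases h₂ N hNb with h | h
        · exact Or.inl (h.mono hNd (min_le_right _ _))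
        · exact Or.inr (h.mono hNd (min_le_right _ _))
      · rcases h₁ N hNa b hb with h | h
        · exact Or.inl (h.mono hNd (min_le_left _ _))
        · exact Or.inr (h.mono hNd (min_le_left _ _))
  obtain ⟨c, hc, N₀, hN₀⟩ := key (Ico 1 q) (fun a ha => by rw [mem_Ico] at ha; exact ha)
  exact ⟨c, hc, N₀, fun N hN a h1 h2 => hN₀ N hN a (by rw [mem_Ico]; exact ⟨h1, h2⟩)⟩

/-- Counting: a set of residues prime to `q` containing `a` or `q - a` for every `a`. -/
lemma half_count (q : ℕ) (hq : 2 < q) (p : ℕ → Prop) [DecidablePred p]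
    (h : ∀ a : ℕ, 1 ≤ a → a < q → p a ∨ p (q - a)) :
    Nat.totient q ≤ 2 * ((range q).filter fun a => q.Coprime a ∧ p a).card := by
  classical
  set G := (range q).filter fun a => q.Coprime a ∧ p a with hG
  have hsub : (range q).filter (fun a => q.Coprime a) ⊆ G ∪ G.image fun a => q - a := by
    intro a ha
    rw [mem_filter, mem_range] at ha
    have ha1 : 1 ≤ a := by
      rcases Nat.eq_zero_or_pos a with h0 | h0
      · rw [h0, Nat.coprime_zero_right] at ha; omega
      · exact h0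
    rcases h a ha1 ha.1 with hp | hp
    · apply mem_union_left
      rw [hG, mem_filter, mem_range]
      exact ⟨ha.1, ha.2, hp⟩
    · apply mem_union_right
      rw [mem_image]
      refine ⟨q - a, ?_, by omega⟩
      rw [hG, mem_filter, mem_range]
      refine ⟨by omega, ?_, hp⟩
      exact (Nat.coprime_self_sub_right ha.1.le).mpr ha.2
  calc Nat.totient q = ((range q).filter (fun a => q.Coprime a)).card := rfl
    _ ≤ (G ∪ G.image fun a => q - a).card := card_le_card hsub
    _ ≤ G.card + (G.image fun a => q - a).card := card_union_le _ _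
    _ ≤ G.card + G.card := by
        have := card_image_le (s := G) (f := fun a => q - a)
        omega
    _ = 2 * G.card := by ring

end Pool.Agent.U831.JE
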