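import Pool.Agent.U831.JE.Gam

/-!
# Monomials in a real number and a number with a transcendence measure
-/

set_option autoImplicit false

namespace Pool.Agent.U831.JE

open Finset Polynomial
open Pool.Agent.R356 (JointR jointR_of_rel ev3 ev3_eq)
open Pool.Agent.TH456.TM

/-- two nonzero numbers with a monomial that has a transcendence measure -/
theorem joint_of_zpow (u v : ℝ) (hu : u ≠ 0) (hv : v ≠ 0) (a b : ℤ)
    (h : MeasT ((u ^ a * v ^ b : ℝ) : ℂ)) : JointR u v := by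
  -- `u^(a⁺) v^(b⁺) - X u^(a⁻) v^(b⁻)`
  set a1 := a.toNat with ha1
  set a2 := (-a).toNat with ha2
  set b1 := b.toNat with hb1
  set b2 := (-b).toNat with hb2
  have hev : ∀ x : ℝ, ev3 u v ((x : ℝ) : ℂ) (C (C X) ^ a1 * C X ^ b1 +
      C (C (C (-1))) * X * (C (C X) ^ a2 * C X ^ b2)) =
      ((u ^ a1 * v ^ b1 - x * (u ^ a2 * v ^ b2) : ℝ) : ℂ) := by
    intro x
    have h2 : ev3 u v (x : ℂ) (C (C X)) = (u : ℂ) := by simp [ev3, evR, σx]
    have h3 : ev3 u v (x : ℂ) (C X) = (v : ℂ) := by simp [ev3, evR]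
    have h4 : ev3 u v (x : ℂ) X = (x : ℂ) := by simp [ev3]
    have h5 : ev3 u v (x : ℂ) (C (C (C (-1)))) = -1 := by simp [ev3, evR, σx]
    rw [map_add, map_mul, map_mul, map_mul, map_mul, map_pow, map_pow, map_pow, map_pow,
      h2, h3, h4, h5]
    push_cast; ring
  have hua : u ^ a * u ^ a2 = u ^ a1 := by
    rw [← zpow_natCast, ← zpow_natCast, ← zpow_add₀ hu]
    congr 1; omega
  have hvb : v ^ b * v ^ b2 = v ^ b1 := by
    rw [← zpow_natCast, ← zpow_natCast, ← zpow_add₀ hv]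
    congr 1; omega
  refine jointR_of_rel _ h u v ⟨C (C X) ^ a1 * C X ^ b1 +
    C (C (C (-1))) * X * (C (C X) ^ a2 * C X ^ b2), ?_, ((u ^ a * v ^ b + 1 : ℝ) : ℂ), ?_⟩
  · rw [hev]
    have : u ^ a1 * v ^ b1 - u ^ a * v ^ b * (u ^ a2 * v ^ b2) = 0 := by
      rw [← hua, ← hvb]; ring
    rw [this]; simp
  · rw [hev]
    have : u ^ a1 * v ^ b1 - (u ^ a * v ^ b + 1) * (u ^ a2 * v ^ b2) = -(u ^ a2 * v ^ b2) := by
      rw [← hua, ← hvb]; ring
    rw [this]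
    have h6 : u ^ a2 * v ^ b2 ≠ 0 := mul_ne_zero (pow_ne_zero _ hu) (pow_ne_zero _ hv)
    exact_mod_cast neg_ne_zero.mpr h6

/-- `c z^j y^k`, where `y` has a transcendence measure. -/
theorem joint_mon (y z : ℝ) (hy0 : y ≠ 0) (hz : z ≠ 0) (hy : MeasT (y : ℂ)) (c c' : ℚ)
    (hc : c ≠ 0) (hc' : c' ≠ 0) (j k j' k' : ℤ) (hd : k * j' - k' * j ≠ 0) :
    JointR (c * z ^ j * y ^ k) (c' * z ^ j' * y ^ k') := by
  have hcr : (c : ℝ) ≠ 0 := by exact_mod_cast hc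
  have hcr' : (c' : ℝ) ≠ 0 := by exact_mod_cast hc'
  refine joint_of_zpow _ _ ?_ ?_ j' (-j) ?_
  · exact mul_ne_zero (mul_ne_zero hcr (zpow_ne_zero _ hz)) (zpow_ne_zero _ hy0)
  · exact mul_ne_zero (mul_ne_zero hcr' (zpow_ne_zero _ hz)) (zpow_ne_zero _ hy0)
  · have e : ((c : ℝ) * z ^ j * y ^ k) ^ j' * ((c' : ℝ) * z ^ j' * y ^ k') ^ (-j) =
        y ^ (k * j' - k' * j) * ((c : ℝ) ^ j' * (c' : ℝ) ^ (-j)) := by
      rw [mul_zpow, mul_zpow, mul_zpow, mul_zpow, ← zpow_mul, ← zpow_mul, ← zpow_mul, ← zpow_mul]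
      have e1 : z ^ (j * j') * z ^ (j' * -j) = 1 := by
        rw [← zpow_add₀ hz]
        have : j * j' + j' * -j = 0 := by ring
        rw [this, zpow_zero]
      have e2 : y ^ (k * j') * y ^ (k' * -j) = y ^ (k * j' - k' * j) := by
        rw [← zpow_add₀ hy0]
        congr 1; ring
      calc _ = (z ^ (j * j') * z ^ (j' * -j)) * (y ^ (k * j') * y ^ (k' * -j)) *
            ((c : ℝ) ^ j' * (c' : ℝ) ^ (-j)) := by ring
        _ = _ := by rw [e1, e2, one_mul]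
    rw [e]
    push_cast
    have ha : IsAlgebraic ℤ (((c : ℚ) : ℂ) ^ j' * ((c' : ℚ) : ℂ) ^ (-j)) := by
      have hr : ∀ q : ℚ, IsAlgebraic ℤ ((q : ℚ) : ℂ) := by
        intro q
        have : ((q : ℚ) : ℂ) = ((q.num : ℤ) : ℂ) * ((q.den : ℤ) : ℂ)⁻¹ := by
          conv_lhs => rw [← Rat.num_div_den q]
          push_cast; rw [div_eq_mul_inv]
        rw [this]
        exact (isAlgebraic_algebraMap (R := ℤ) (A := ℂ) q.num).mul
          (isAlgebraic_algebraMap (R := ℤ) (A := ℂ) (q.den : ℤ)).inv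
      exact (alg_zpow _ (hr c) _).mul (alg_zpow _ (hr c') _)
    refine measT_mul_alg (measT_zpow hy _ hd) _ ha ?_
    exact mul_ne_zero (zpow_ne_zero _ (by exact_mod_cast hc)) (zpow_ne_zero _ (by exact_mod_cast hc'))

end Pool.Agent.U831.JE
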