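import Mathlib

/-!
# Counting `n α + γ` modulo one in blocks

`cnt α γ u v N` is the number of `n < N` such that the fractional part of `n α + γ` lies in `[u, v)`.
We show (`disc_le`): for every real `α` and `N ≥ 1` there are a reduced fraction `p / q` with
`q ≤ √N` such that for all `γ` and `0 ≤ u ≤ v ≤ 1`
`|cnt α γ u v N - (v - u) N| ≤ 17 √N + 8 N / (q max (1, N |q α - p|))`.
-/

set_option autoImplicit false

namespace Pool.Agent.U831.JE

open Finset

/-- The number of `n < N` with the fractional part of `n α + γ` in `[u, v)`. -/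
noncomputable def cnt (α γ u v : ℝ) (N : ℕ) : ℕ :=
  ((range N).filter fun n : ℕ => u ≤ Int.fract (n * α + γ) ∧ Int.fract (n * α + γ) < v).card

lemma cnt_le (α γ u v : ℝ) (N : ℕ) : cnt α γ u v N ≤ N := by
  unfold cnt
  exact (card_filter_le _ _).trans (by simp)

lemma cnt_add (α γ u v : ℝ) (a b : ℕ) :
    cnt α γ u v (a + b) = cnt α γ u v a + cnt α (γ + a * α) u v b := by
  unfold cnt
  rw [range_add_eq_union, filter_union, card_union_of_disjoint]
  · congr 1
    rw [filter_map, card_map]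
    congr 1
    apply filter_congr
    intro n _
    have : (((addLeftEmbedding a) n : ℕ) : ℝ) * α + γ = n * α + (γ + a * α) := by
      simp only [addLeftEmbedding_apply, Nat.cast_add]
      ring
    simp only [Function.comp, this]
  · apply disjoint_filter_filter
    exact disjoint_range_addLeftEmbedding a _

/-- Upper bound for one block of length `q`. -/
lemma block_upper (α γ u v : ℝ) (p : ℤ) (q : ℕ) (hq : 1 ≤ q) (hc : IsCoprime p (q : ℤ))
    (h : |q * α - p| ≤ 1 / q) (huv : u ≤ v) :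
    (cnt α γ u v q : ℝ) ≤ (v - u) * q + 5 := by
  have hq0 : (0 : ℝ) < q := by exact_mod_cast hq
  set c : ℤ := ⌊(q : ℝ) * γ⌋ with hcdef
  set f : ℝ := Int.fract ((q : ℝ) * γ) with hf
  have hf0 : 0 ≤ f := Int.fract_nonneg _
  have hf1 : f < 1 := Int.fract_lt_one _
  have hcf : (q : ℝ) * γ = c + f := (Int.floor_add_fract _).symm
  set η : ℝ := q * α - p with hη
  -- the map
  let g : ℕ → ℤ := fun j => j * p + c - q * ⌊(j : ℝ) * α + γ⌋
  have hinj : Set.InjOn g ((range q).filter fun n : ℕ =>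
      u ≤ Int.fract (n * α + γ) ∧ Int.fract (n * α + γ) < v) := by
    intro i hi j hj hij
    simp only [coe_filter, mem_range, Set.mem_ofPred_eq] at hi hj
    simp only [g] at hij
    have h1 : (q : ℤ) ∣ ((i : ℤ) - j) * p := by
      refine ⟨⌊(i : ℝ) * α + γ⌋ - ⌊(j : ℝ) * α + γ⌋, ?_⟩
      linear_combination hij
    have h2 : (q : ℤ) ∣ (i : ℤ) - j := hc.symm.dvd_of_dvd_mul_right h1
    have h3 : |(i : ℤ) - j| < q := by
      rw [abs_lt]
      constructor <;> omega
    have h4 := Int.eq_zero_of_abs_lt_dvd h2 h3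
    omega
  have hmaps : ∀ j ∈ (range q).filter (fun n : ℕ =>
      u ≤ Int.fract (n * α + γ) ∧ Int.fract (n * α + γ) < v),
      g j ∈ Ioc (⌊(q : ℝ) * u - 2⌋ - 1) ⌊(q : ℝ) * v + 1⌋ := by
    intro j hj
    simp only [mem_filter, mem_range] at hj
    obtain ⟨hjq, hju, hjv⟩ := hj
    have hjq' : (j : ℝ) ≤ q := by exact_mod_cast hjq.le
    have e1 : (g j : ℝ) = q * Int.fract ((j : ℝ) * α + γ) - (f + j * η) := by
      simp only [g]
      push_cast
      have : Int.fract ((j : ℝ) * α + γ) = (j : ℝ) * α + γ - ⌊(j : ℝ) * α + γ⌋ := rfl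
      rw [this, hη]
      linear_combination (-1 : ℝ) * hcf
    have e2 : |(j : ℝ) * η| ≤ 1 := by
      rw [abs_mul, abs_of_nonneg (Nat.cast_nonneg j)]
      calc (j : ℝ) * |η| ≤ q * (1 / q) :=
            mul_le_mul hjq' h (abs_nonneg _) hq0.le
        _ = 1 := by field_simp
    rw [abs_le] at e2
    have e3 : (q : ℝ) * u ≤ q * Int.fract ((j : ℝ) * α + γ) :=
      mul_le_mul_of_nonneg_left hju hq0.le
    have e4 : (q : ℝ) * Int.fract ((j : ℝ) * α + γ) ≤ q * v :=
      mul_le_mul_of_nonneg_left hjv.le hq0.le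
    rw [mem_Ioc]
    constructor
    · have : ((⌊(q : ℝ) * u - 2⌋ : ℤ) : ℝ) ≤ g j := by
        have := Int.floor_le ((q : ℝ) * u - 2)
        linarith
      have h5 : ⌊(q : ℝ) * u - 2⌋ ≤ g j := by exact_mod_cast this
      omega
    · apply Int.le_floor.mpr
      linarith
  have hcard := card_le_card_of_injOn g (fun j hj => hmaps j hj) hinj
  have hI : ((Ioc (⌊(q : ℝ) * u - 2⌋ - 1) ⌊(q : ℝ) * v + 1⌋).card : ℝ) ≤ (v - u) * q + 5 := by
    rw [Int.card_Ioc]
    have h1 : ⌊(q : ℝ) * u - 2⌋ - 1 ≤ ⌊(q : ℝ) * v + 1⌋ := by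
      have : ⌊(q : ℝ) * u - 2⌋ ≤ ⌊(q : ℝ) * v + 1⌋ := by
        apply Int.floor_le_floor
        nlinarith
      omega
    have h2 : ((⌊(q : ℝ) * v + 1⌋ - (⌊(q : ℝ) * u - 2⌋ - 1)).toNat : ℤ) =
        ⌊(q : ℝ) * v + 1⌋ - (⌊(q : ℝ) * u - 2⌋ - 1) := Int.toNat_of_nonneg (by omega)
    have h3 : (((⌊(q : ℝ) * v + 1⌋ - (⌊(q : ℝ) * u - 2⌋ - 1)).toNat : ℕ) : ℝ) =
        (⌊(q : ℝ) * v + 1⌋ : ℝ) - ((⌊(q : ℝ) * u - 2⌋ : ℝ) - 1) := by
      have := congrArg (fun z : ℤ => (z : ℝ)) h2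
      push_cast at this
      simpa using this
    rw [h3]
    have h4 := Int.floor_le ((q : ℝ) * v + 1)
    have h5 := Int.lt_floor_add_one ((q : ℝ) * u - 2)
    linarith
  calc (cnt α γ u v q : ℝ) ≤ ((Ioc (⌊(q : ℝ) * u - 2⌋ - 1) ⌊(q : ℝ) * v + 1⌋).card : ℝ) := by
        exact_mod_cast hcard
    _ ≤ _ := hI

/-- The three pieces of the circle. -/
lemma cnt_split (α γ u v : ℝ) (huv : u ≤ v) (N : ℕ) :
    cnt α γ 0 u N + cnt α γ u v N + cnt α γ v 1 N = N := by
  unfold cnt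
  simp only [card_filter]
  rw [← sum_add_distrib, ← sum_add_distrib]
  conv_rhs => rw [← card_range N, card_eq_sum_ones]
  apply sum_congr rfl
  intro n _
  set x := Int.fract ((n : ℝ) * α + γ)
  have h0 : 0 ≤ x := Int.fract_nonneg _
  have h1 : x < 1 := Int.fract_lt_one _
  rcases lt_or_ge x u with h | h
  · rw [if_pos ⟨h0, h⟩, if_neg (fun hh => absurd hh.1 (not_le.mpr h)),
      if_neg (fun hh => absurd hh.1 (not_le.mpr (h.trans_le huv)))]
  · rcases lt_or_ge x v with h' | h'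
    · rw [if_neg (fun hh => absurd hh.2 (not_lt.mpr h)), if_pos ⟨h, h'⟩,
        if_neg (fun hh => absurd hh.1 (not_le.mpr h'))]
    · rw [if_neg (fun hh => absurd hh.2 (not_lt.mpr h)),
        if_neg (fun hh => absurd hh.2 (not_lt.mpr h')), if_pos ⟨h', h1⟩]

/-- One block of length `q`. -/
lemma block (α γ u v : ℝ) (p : ℤ) (q : ℕ) (hq : 1 ≤ q) (hc : IsCoprime p (q : ℤ))
    (h : |q * α - p| ≤ 1 / q) (hu : 0 ≤ u) (huv : u ≤ v) (hv : v ≤ 1) :
    |(cnt α γ u v q : ℝ) - (v - u) * q| ≤ 10 := by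
  have h1 := block_upper α γ u v p q hq hc h huv
  have h2 := block_upper α γ 0 u p q hq hc h hu
  have h3 := block_upper α γ v 1 p q hq hc h hv
  have h4 : (cnt α γ 0 u q : ℝ) + cnt α γ u v q + cnt α γ v 1 q = q := by
    exact_mod_cast cnt_split α γ u v huv q
  rw [abs_le]
  constructor <;> linarith

/-- `m` blocks of length `q`. -/
lemma blocks (α u v : ℝ) (p : ℤ) (q : ℕ) (hq : 1 ≤ q) (hc : IsCoprime p (q : ℤ))
    (h : |q * α - p| ≤ 1 / q) (hu : 0 ≤ u) (huv : u ≤ v) (hv : v ≤ 1) (m : ℕ) :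
    ∀ γ : ℝ, |(cnt α γ u v (m * q) : ℝ) - (v - u) * (m * q : ℕ)| ≤ 10 * m := by
  induction m with
  | zero => intro γ; simp [cnt]
  | succ m ih =>
    intro γ
    rw [Nat.succ_mul, cnt_add]
    have h1 := ih γ
    have h2 := block α (γ + (m * q : ℕ) * α) u v p q hq hc h hu huv hv
    rw [abs_le] at h1 h2 ⊢
    push_cast at h1 h2 ⊢
    constructor <;> linarith

lemma triv (α γ u v : ℝ) (hu : 0 ≤ u) (huv : u ≤ v) (hv : v ≤ 1) (N : ℕ) :
    |(cnt α γ u v N : ℝ) - (v - u) * N| ≤ N := by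
  have h1 : (cnt α γ u v N : ℝ) ≤ N := by exact_mod_cast cnt_le α γ u v N
  have h2 : (0 : ℝ) ≤ cnt α γ u v N := Nat.cast_nonneg _
  have h3 : (0 : ℝ) ≤ N := Nat.cast_nonneg _
  have h4 : (v - u) * N ≤ 1 * N := mul_le_mul_of_nonneg_right (by linarith) h3
  have h5 : 0 ≤ (v - u) * N := mul_nonneg (by linarith) h3
  rw [abs_le]
  constructor <;> linarith

lemma err_add (α γ u v : ℝ) (a b : ℕ) (A B : ℝ)
    (ha : |(cnt α γ u v a : ℝ) - (v - u) * a| ≤ A)
    (hb : |(cnt α (γ + a * α) u v b : ℝ) - (v - u) * b| ≤ B) :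
    |(cnt α γ u v (a + b) : ℝ) - (v - u) * (a + b : ℕ)| ≤ A + B := by
  rw [cnt_add]
  rw [abs_le] at ha hb ⊢
  push_cast
  constructor <;> linarith

/-- Blocks of one length `q`: the error is at most `10 N / q + q`. -/
lemma one_scale (α u v : ℝ) (p : ℤ) (q : ℕ) (hq : 1 ≤ q) (hc : IsCoprime p (q : ℤ))
    (h : |q * α - p| ≤ 1 / q) (hu : 0 ≤ u) (huv : u ≤ v) (hv : v ≤ 1) (N : ℕ) (γ : ℝ) :
    |(cnt α γ u v N : ℝ) - (v - u) * N| ≤ 10 * (N / q) + q := by
  have e : N = (N / q) * q + N % q := by rw [mul_comm]; exact (Nat.div_add_mod N q).symm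
  have h1 := blocks α u v p q hq hc h hu huv hv (N / q) γ
  have h2 := triv α (γ + ((N / q) * q : ℕ) * α) u v hu huv hv (N % q)
  have h3 := err_add α γ u v _ _ _ _ h1 h2
  rw [← e] at h3
  have h4 : ((N / q : ℕ) : ℝ) ≤ N / q := Nat.cast_div_le
  have h5 : ((N % q : ℕ) : ℝ) ≤ q := by exact_mod_cast (Nat.mod_lt N (by omega)).le
  linarith

/-- Blocks of two lengths. -/
lemma two_scales (α u v : ℝ) (p p' : ℤ) (q q' : ℕ) (hq : 1 ≤ q) (hc : IsCoprime p (q : ℤ))
    (h : |q * α - p| ≤ 1 / q) (hq' : 1 ≤ q') (hc' : IsCoprime p' (q' : ℤ))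
    (h' : |q' * α - p'| ≤ 1 / q') (hu : 0 ≤ u) (huv : u ≤ v) (hv : v ≤ 1) (N : ℕ) (γ : ℝ) :
    |(cnt α γ u v N : ℝ) - (v - u) * N| ≤ 10 * (N / q') + 10 * (q' / q) + q := by
  have e : N = (N / q') * q' + N % q' := by rw [mul_comm]; exact (Nat.div_add_mod N q').symm
  have h1 := blocks α u v p' q' hq' hc' h' hu huv hv (N / q') γ
  have h2 := one_scale α u v p q hq hc h hu huv hv (N % q') (γ + ((N / q') * q' : ℕ) * α)
  have h3 := err_add α γ u v _ _ _ _ h1 h2
  rw [← e] at h3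
  have h4 : ((N / q' : ℕ) : ℝ) ≤ N / q' := Nat.cast_div_le
  have h5 : ((N % q' : ℕ) : ℝ) ≤ q' := by exact_mod_cast (Nat.mod_lt N (by omega)).le
  have hq0 : (0 : ℝ) < q := by exact_mod_cast hq
  have h6 : ((N % q' : ℕ) : ℝ) / q ≤ q' / q := div_le_div_of_nonneg_right h5 hq0.le
  linarith

/-- The main bound. -/
theorem disc_le (α : ℝ) (N : ℕ) (hN : 1 ≤ N) : ∃ (q : ℕ) (p : ℤ) (A : ℝ), 1 ≤ q ∧
    (q : ℝ) ≤ Real.sqrt N ∧ 1 ≤ A ∧ |q * α - p| ≤ A / N ∧
    ∀ γ u v : ℝ, 0 ≤ u → u ≤ v → v ≤ 1 →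
      |(cnt α γ u v N : ℝ) - (v - u) * N| ≤ 21 * Real.sqrt N + 10 * (N / (q * A)) := by
  classical
  have hN0 : (0 : ℝ) < N := by exact_mod_cast hN
  set K := Nat.sqrt N with hK
  have hK1 : 1 ≤ K := Nat.le_sqrt.mpr (by omega)
  have hKs : (K : ℝ) ≤ Real.sqrt N := Real.nat_sqrt_le_real_sqrt
  have hKs' : Real.sqrt N < K + 1 := by
    have := Real.real_sqrt_lt_nat_sqrt_succ (a := N)
    exact this
  -- a minimizer
  obtain ⟨q0, hq0, hmin⟩ := exists_min_image (Icc 1 K)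
    (fun q : ℕ => |(q : ℝ) * α - round ((q : ℝ) * α)|) ⟨1, by simp [hK1]⟩
  rw [mem_Icc] at hq0
  set r : ℚ := (round ((q0 : ℝ) * α) : ℚ) / (q0 : ℚ) with hr
  set q : ℕ := r.den with hqdef
  set p : ℤ := r.num with hpdef
  have hq1 : 1 ≤ q := r.den_pos
  have hqR : (0 : ℝ) < q := by exact_mod_cast hq1
  have hq00 : (0 : ℝ) < q0 := by exact_mod_cast hq0.1
  have hcop : IsCoprime p (q : ℤ) := by
    rw [Int.isCoprime_iff_nat_coprime]
    simpa using r.reduced
  have hqq0 : q ∣ q0 := by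
    have := Rat.den_dvd (round ((q0 : ℝ) * α)) (q0 : ℤ)
    have h2 : ((round ((q0 : ℝ) * α) : ℤ) : ℚ) / ((q0 : ℤ) : ℚ) = r := by rw [hr]; simp
    rw [Rat.divInt_eq_div, h2] at this
    exact_mod_cast this
  have hqle : q ≤ q0 := Nat.le_of_dvd (by omega) hqq0
  have hfrac : (p : ℝ) / q = round ((q0 : ℝ) * α) / q0 := by
    have h1 : (r : ℚ) = p / q := (Rat.num_div_den r).symm
    have h2 : ((r : ℚ) : ℝ) = (p : ℝ) / q := by
      rw [h1]; push_cast; rfl
    rw [← h2, hr]; push_cast; rfl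
  set δ := |(q : ℝ) * α - p| with hδ
  have hδle : δ ≤ |(q0 : ℝ) * α - round ((q0 : ℝ) * α)| := by
    have e1 : (q : ℝ) * α - p = (q / q0) * ((q0 : ℝ) * α - round ((q0 : ℝ) * α)) := by
      have : (p : ℝ) = q * (round ((q0 : ℝ) * α) / q0) := by
        rw [← hfrac]; field_simp
      rw [this]; field_simp
    rw [hδ, e1, abs_mul, abs_of_nonneg (by positivity)]
    have : (q : ℝ) / q0 ≤ 1 := by
      rw [div_le_one hq00]; exact_mod_cast hqle
    exact mul_le_of_le_one_left (abs_nonneg _) this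
  have hδmin : ∀ (l : ℕ) (z : ℤ), 1 ≤ l → l ≤ K → δ ≤ |(l : ℝ) * α - z| := by
    intro l z hl1 hl2
    refine hδle.trans ((hmin l (by simp [hl1, hl2])).trans ?_)
    exact round_le _ _
  have hqK : q ≤ K := hqle.trans hq0.2
  have hδ1 : δ ≤ 1 / (K + 1) := by
    obtain ⟨j, k, hk0, hkn, hjk⟩ := Real.exists_int_int_abs_mul_sub_le α (n := K) (by omega)
    have h1 := hδmin k.toNat j (by omega) (by omega)
    have h2 : ((k.toNat : ℕ) : ℝ) = k := by
      have : ((k.toNat : ℕ) : ℤ) = k := Int.toNat_of_nonneg hk0.le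
      exact_mod_cast congrArg (fun z : ℤ => (z : ℝ)) this
    rw [h2] at h1
    exact h1.trans hjk
  have hδq : δ ≤ 1 / q := by
    refine hδ1.trans ?_
    apply one_div_le_one_div_of_le hqR
    have : (q : ℝ) ≤ K := by exact_mod_cast hqK
    linarith
  have hδ0 : 0 ≤ δ := abs_nonneg _
  have hsq : 1 ≤ Real.sqrt N := by
    rw [Real.one_le_sqrt]; exact_mod_cast hN
  have hqs : (q : ℝ) ≤ Real.sqrt N := by
    have : (q : ℝ) ≤ K := by exact_mod_cast hqK
    linarith
  rcases le_or_gt ((N : ℝ) * δ) 1 with hcase | hcase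
  · refine ⟨q, p, 1, hq1, hqs, le_rfl, ?_, ?_⟩
    · rw [le_div_iff₀ hN0]; linarith
    · intro γ u v hu huv hv
      have := one_scale α u v p q hq1 hcop hδq hu huv hv N γ
      rw [mul_one]
      linarith
  · refine ⟨q, p, N * δ, hq1, hqs, hcase.le, ?_, ?_⟩
    · rw [mul_div_cancel_left₀ _ hN0.ne']
    · have hδpos : 0 < δ := by
        by_contra hh
        have : δ = 0 := le_antisymm (not_lt.mp hh) hδ0
        rw [this, mul_zero] at hcase
        linarith
      intro γ u v hu huv hv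
      set M : ℕ := ⌈1 / δ⌉₊ with hM
      have hMpos : 0 < M := Nat.ceil_pos.mpr (by positivity)
      obtain ⟨s, hs1, hs2⟩ := Real.exists_rat_abs_sub_le_and_den_le α hMpos
      set q' : ℕ := s.den with hq'def
      set p' : ℤ := s.num with hp'def
      have hq'1 : 1 ≤ q' := s.den_pos
      have hq'0 : (0 : ℝ) < q' := by exact_mod_cast hq'1
      have hcop' : IsCoprime p' (q' : ℤ) := by
        rw [Int.isCoprime_iff_nat_coprime]
        simpa using s.reduced
      have hs : ((s : ℚ) : ℝ) = (p' : ℝ) / q' := by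
        conv_lhs => rw [← Rat.num_div_den s]
        push_cast; rfl
      have hMδ : 1 / δ ≤ M := Nat.le_ceil _
      have hM1 : (M : ℝ) < 1 / δ + 1 := Nat.ceil_lt_add_one (by positivity)
      have h1 : |(q' : ℝ) * α - p'| ≤ 1 / (M + 1) := by
        have e1 : (q' : ℝ) * α - p' = q' * (α - s) := by rw [hs]; field_simp
        rw [e1, abs_mul, abs_of_pos hq'0]
        calc (q' : ℝ) * |α - s| ≤ q' * (1 / ((M + 1) * q')) :=
              mul_le_mul_of_nonneg_left hs1 hq'0.le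
          _ = 1 / (M + 1) := by field_simp
      have h2 : |(q' : ℝ) * α - p'| < δ := by
        refine h1.trans_lt ?_
        rw [div_lt_iff₀ (by positivity)]
        have := (div_le_iff₀ hδpos).mp hMδ
        nlinarith
      have hK' : K < q' := by
        by_contra hh
        exact absurd (hδmin q' p' hq'1 (not_lt.mp hh)) (not_le.mpr h2)
      have h3 : |(q' : ℝ) * α - p'| ≤ 1 / q' := by
        refine h1.trans (one_div_le_one_div_of_le hq'0 ?_)
        have : (q' : ℝ) ≤ M := by exact_mod_cast hs2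
        linarith
      have h4 := two_scales α u v p p' q q' hq1 hcop hδq hq'1 hcop' h3 hu huv hv N γ
      have h5 : (N : ℝ) / q' ≤ Real.sqrt N := by
        have : Real.sqrt N ≤ q' := by
          have : ((K : ℝ) + 1) ≤ q' := by exact_mod_cast hK'
          linarith
        rw [div_le_iff₀ hq'0]
        calc (N : ℝ) = Real.sqrt N * Real.sqrt N := (Real.mul_self_sqrt hN0.le).symm
          _ ≤ Real.sqrt N * q' := mul_le_mul_of_nonneg_left this (Real.sqrt_nonneg _)
      have h6 : (q' : ℝ) / q ≤ N / (q * (N * δ)) + 1 := by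
        have a1 : (q' : ℝ) ≤ 1 / δ + 1 := by
          have : (q' : ℝ) ≤ M := by exact_mod_cast hs2
          linarith
        calc (q' : ℝ) / q ≤ (1 / δ + 1) / q := div_le_div_of_nonneg_right a1 hqR.le
          _ = (1 / δ) / q + 1 / q := by rw [add_div]
          _ ≤ N / (q * (N * δ)) + 1 := by
            have b1 : (1 / δ) / q = N / (q * (N * δ)) := by field_simp
            have b2 : (1 : ℝ) / q ≤ 1 := by
              rw [div_le_one hqR]; exact_mod_cast hq1
            rw [b1]; linarith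
      calc _ ≤ _ := h4
        _ ≤ 10 * Real.sqrt N + 10 * (N / (q * (N * δ)) + 1) + Real.sqrt N := by
            have := mul_le_mul_of_nonneg_left h5 (show (0 : ℝ) ≤ 10 by norm_num)
            have := mul_le_mul_of_nonneg_left h6 (show (0 : ℝ) ≤ 10 by norm_num)
            linarith
        _ ≤ _ := by linarith

end Pool.Agent.U831.JE
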