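import Pool.Agent.U831.JE.Elim

/-!
# Discrepancy of `n (b e + c t)` in all directions `(b, c)`
-/

set_option autoImplicit false

namespace Pool.Agent.U831.JE

open Finset Filter Topology

/-- At every scale the exceptional directions lie on one line. -/
theorem one_line (t : ℝ) (N : ℕ) (hN : 2 ≤ N) : ∃ b₀ c₀ : ℤ, (b₀ ≠ 0 ∨ c₀ ≠ 0) ∧
    ∀ b c : ℤ, b * c₀ - b₀ * c ≠ 0 →
      DiscLe (b * Real.exp 1 + c * t) N (200 * ht b c * rate N) := by
  by_cases h : ∃ b₀ c₀ : ℤ, (b₀ ≠ 0 ∨ c₀ ≠ 0) ∧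
      ¬ DiscLe (b₀ * Real.exp 1 + c₀ * t) N (200 * ht b₀ c₀ * rate N)
  · obtain ⟨b₀, c₀, h0, hb⟩ := h
    refine ⟨b₀, c₀, h0, fun b c hbc => ?_⟩
    rcases two_dirs t N hN b c b₀ c₀ hbc with h1 | h1
    · exact h1
    · exact absurd h1 hb
  · push Not at h
    refine ⟨1, 0, Or.inl one_ne_zero, fun b c hbc => h b c ?_⟩
    by_contra hcon
    push Not at hcon
    apply hbc
    rw [hcon.1, hcon.2]; ring

lemma rate_tendsto : Tendsto (fun N : ℕ => rate N) atTop (𝓝 0) := by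
  have h1 : Tendsto (fun x : ℝ => Real.log x / x) atTop (𝓝 0) :=
    Real.isLittleO_log_id_atTop.tendsto_div_nhds_zero
  have h2 : Tendsto (fun N : ℕ => Real.log (N : ℝ) / N) atTop (𝓝 0) :=
    h1.comp tendsto_natCast_atTop_atTop
  have h3 := h2.rpow_const (p := (1 : ℝ) / 3) (Or.inr (by norm_num))
  rw [Real.zero_rpow (by norm_num)] at h3
  exact h3

/-- If `1, e, t` are dependent, the exceptional line is the line of the relation at all large
scales. -/
theorem of_relation (t : ℝ) (a₀ b₀ c₀ : ℤ) (h : (a₀ : ℝ) + b₀ * Real.exp 1 + c₀ * t = 0) :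
    ∃ N₀ : ℕ, ∀ N : ℕ, N₀ ≤ N → ∀ b c : ℤ, b * c₀ - b₀ * c ≠ 0 →
      DiscLe (b * Real.exp 1 + c * t) N (200 * ht b c * rate N) := by
  have h1 : Tendsto (fun N : ℕ => 200 * (ht b₀ c₀ : ℝ) * rate N) atTop (𝓝 0) := by
    have := rate_tendsto.const_mul (200 * (ht b₀ c₀ : ℝ))
    rwa [mul_zero] at this
  have h2 : ∀ᶠ N : ℕ in atTop, 200 * (ht b₀ c₀ : ℝ) * rate N < 1 / 2 :=
    h1.eventually_lt_const (by norm_num)
  obtain ⟨N₀, hN₀⟩ := eventually_atTop.mp h2
  refine ⟨max N₀ 2, fun N hN b c hbc => ?_⟩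
  have hN2 : 2 ≤ N := (le_max_right _ _).trans hN
  have hlt := hN₀ N ((le_max_left _ _).trans hN)
  rcases two_dirs t N hN2 b c b₀ c₀ hbc with h3 | h3
  · exact h3
  · exfalso
    have h4 := h3 0 0 (1 / 2) le_rfl (by norm_num) (by norm_num)
    have h5 : cnt (b₀ * Real.exp 1 + c₀ * t) 0 0 (1 / 2) N = N := by
      unfold cnt
      have : ∀ n ∈ range N, (0 : ℝ) ≤ Int.fract ((n : ℝ) * (b₀ * Real.exp 1 + c₀ * t) + 0) ∧
          Int.fract ((n : ℝ) * (b₀ * Real.exp 1 + c₀ * t) + 0) < 1 / 2 := by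
        intro n _
        have e : (n : ℝ) * (b₀ * Real.exp 1 + c₀ * t) + 0 = ((-(n * a₀) : ℤ) : ℝ) := by
          push_cast
          linear_combination (n : ℝ) * h
        rw [e, Int.fract_intCast]
        norm_num
      rw [filter_true_of_mem this, card_range]
    rw [h5] at h4
    have hN0 : (0 : ℝ) < N := by exact_mod_cast (by omega : 0 < N)
    have h6 : |(N : ℝ) - (1 / 2 - 0) * N| = (1 / 2) * N := by
      rw [show (N : ℝ) - (1 / 2 - 0) * N = (1 / 2) * N by ring]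
      exact abs_of_nonneg (by positivity)
    rw [h6] at h4
    have h7 : 1 / 2 ≤ 200 * (ht b₀ c₀ : ℝ) * rate N := le_of_mul_le_mul_right h4 hN0
    linarith

end Pool.Agent.U831.JE
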