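import Pool.Agent.U831.JE.Elim
import Pool.Agent.R356.Aff

/-!
# From joint measures to equidistribution of multiples
-/

set_option autoImplicit false

namespace Pool.Agent.U831.JE

open Finset Polynomial Filter Topology
open Pool.Agent.R356 (JointR)

/-- All multiples `n f(u)`, `f` a nonconstant integer polynomial of degree at most `D` with
coefficients at most `N ^ c`, are equidistributed with the rate `N ^ (-c)`. -/
def Good (D : ℕ) (c : ℝ) (N : ℕ) (u : ℝ) : Prop :=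
  ∀ f : ℤ[X], 1 ≤ f.natDegree → f.natDegree ≤ D → (∀ k, |(f.coeff k : ℝ)| ≤ (N : ℝ) ^ c) →
    DiscLe (aeval u f) N ((N : ℝ) ^ (-c))

lemma Good.mono {D : ℕ} {c c' : ℝ} {N : ℕ} {u : ℝ} (hN : 1 ≤ N) (hc : c' ≤ c)
    (h : Good D c N u) : Good D c' N u := by
  have hN1 : (1 : ℝ) ≤ N := by exact_mod_cast hN
  intro f h1 h2 h3 γ a b ha hab hb
  refine (h f h1 h2 (fun k => (h3 k).trans (Real.rpow_le_rpow_of_exponent_le hN1 hc)) γ a b
    ha hab hb).trans ?_
  exact mul_le_mul_of_nonneg_right (Real.rpow_le_rpow_of_exponent_le hN1 (by linarith))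
    (by linarith)

/-- A bad number has a near polynomial relation. -/
lemma near_of_bad (D : ℕ) (u : ℝ) (c : ℝ) (hc : 0 < c) (hc1 : c ≤ 1 / 4) :
    ∃ N₀ : ℕ, ∀ N : ℕ, N₀ ≤ N → ¬ Good D c N u →
      ∃ P : ℤ[X], P ≠ 0 ∧ P.natDegree ≤ D ∧ (∀ k, |(P.coeff k : ℝ)| ≤ (N : ℝ) ^ (4 * c)) ∧
        |aeval u P| ≤ 20 * (N : ℝ) ^ (c - 1) := by
  set K : ℝ := 100 * (D + 1) * (|u| + 1) ^ D with hK
  have hK0 : 0 < K := by positivity
  have hK1 : 100 ≤ K := by
    have h1 : (1 : ℝ) ≤ (|u| + 1) ^ D := one_le_pow₀ (by linarith [abs_nonneg u])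
    have h2 : (1 : ℝ) ≤ (D : ℝ) + 1 := by
      have : (0 : ℝ) ≤ D := Nat.cast_nonneg D
      linarith
    rw [hK]
    nlinarith
  have ht : Tendsto (fun N : ℕ => (N : ℝ) ^ c) atTop atTop :=
    (tendsto_rpow_atTop hc).comp tendsto_natCast_atTop_atTop
  obtain ⟨N₁, hN₁⟩ := eventually_atTop.mp (ht.eventually_ge_atTop K)
  refine ⟨max N₁ 1, fun N hN hbad => ?_⟩
  have hN1 : 1 ≤ N := (le_max_right _ _).trans hN
  have hNK : K ≤ (N : ℝ) ^ c := hN₁ N ((le_max_left _ _).trans hN)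
  have hN0 : (0 : ℝ) < N := by exact_mod_cast hN1
  have hN1' : (1 : ℝ) ≤ N := by exact_mod_cast hN1
  set T : ℝ := (N : ℝ) ^ c with hT
  have hT0 : 0 < T := by positivity
  unfold Good at hbad
  push Not at hbad
  obtain ⟨f, hf1, hfD, hfc, hfb⟩ := hbad
  unfold DiscLe at hfb
  push Not at hfb
  obtain ⟨γ, a, b, ha, hab, hb, hlt⟩ := hfb
  obtain ⟨q, p, A, hq, hqs, hA, hqp, hd⟩ := disc_le (aeval u f) N hN1
  have h1 := hd γ a b ha hab hb
  have hq0 : (0 : ℝ) < q := by exact_mod_cast hq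
  have hA0 : 0 < A := by linarith
  -- `21 sqrt N ≤ N^(1-c)/2`
  have hinv : (N : ℝ) ^ (-c) = 1 / T := by rw [Real.rpow_neg hN0.le, hT, one_div]
  rw [hinv] at hlt
  have hs : 21 * Real.sqrt N ≤ (1 / 2) * (1 / T * N) := by
    have e1 : T ≤ Real.sqrt (Real.sqrt N) := by
      rw [hT, Real.sqrt_eq_rpow, Real.sqrt_eq_rpow, ← Real.rpow_mul hN0.le]
      exact Real.rpow_le_rpow_of_exponent_le hN1' (by norm_num; linarith)
    set r := Real.sqrt (Real.sqrt N) with hr
    have hr0 : 0 < r := Real.sqrt_pos.mpr (Real.sqrt_pos.mpr hN0)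
    have hrr : r * r = Real.sqrt N := Real.mul_self_sqrt (Real.sqrt_nonneg _)
    have hss : Real.sqrt N * Real.sqrt N = N := Real.mul_self_sqrt hN0.le
    have e2 : 1 / r ≤ 1 / T := one_div_le_one_div_of_le hT0 e1
    have e3 : 42 ≤ r := by linarith
    have e4 : (1 : ℝ) / r * N = r * Real.sqrt N := by
      have e0 : ∀ s : ℝ, 1 / r * (r * r * s) = r * s := fun s => by field_simp
      have e00 := e0 (Real.sqrt N)
      rw [hrr, hss] at e00
      exact e00
    have e5 : 1 / r * N ≤ 1 / T * N := mul_le_mul_of_nonneg_right e2 hN0.le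
    have e6 : 42 * Real.sqrt N ≤ r * Real.sqrt N :=
      mul_le_mul_of_nonneg_right e3 (Real.sqrt_nonneg _)
    linarith
  have h2 : (1 / 2) * (1 / T * N) < 10 * ((N : ℝ) / (q * A)) := by linarith
  have h3 : q * A < 20 * T := by
    have e1 : 10 * ((N : ℝ) / (q * A)) = (10 / (q * A)) * N := by ring
    have e2 : (1 / 2) * (1 / T * N) = (1 / (2 * T)) * N := by field_simp
    rw [e1, e2] at h2
    have h4 := lt_of_mul_lt_mul_right h2 hN0.le
    rw [div_lt_div_iff₀ (by positivity) (by positivity)] at h4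
    linarith
  have hqT : (q : ℝ) < 20 * T := by nlinarith
  have hAT : A < 20 * T := by
    have : (1 : ℝ) ≤ q := by exact_mod_cast hq
    nlinarith
  -- the polynomial
  set P : ℤ[X] := C (q : ℤ) * f - C p with hP
  have hPu : aeval u P = q * aeval u f - p := by
    rw [hP]; simp
  have hPdeg : P.natDegree = f.natDegree := by
    rw [hP, natDegree_sub_C, natDegree_C_mul (by exact_mod_cast (by omega : q ≠ 0))]
  have hfu : |aeval u f| ≤ (D + 1) * (T * (|u| + 1) ^ D) := by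
    rw [aeval_eq_sum_range]
    refine (abs_sum_le_sum_abs _ _).trans ?_
    calc ∑ i ∈ range (f.natDegree + 1), |f.coeff i • u ^ i|
        ≤ ∑ i ∈ range (f.natDegree + 1), T * (|u| + 1) ^ D := by
          apply sum_le_sum
          intro i hi
          rw [mem_range] at hi
          rw [zsmul_eq_mul, abs_mul, abs_pow]
          have e1 : |u| ^ i ≤ (|u| + 1) ^ D := by
            calc |u| ^ i ≤ (|u| + 1) ^ i := pow_le_pow_left₀ (abs_nonneg _) (by linarith) i
              _ ≤ (|u| + 1) ^ D := pow_le_pow_right₀ (by linarith [abs_nonneg u]) (by omega)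
          exact mul_le_mul (hfc i) e1 (by positivity) hT0.le
      _ = ((f.natDegree + 1 : ℕ) : ℝ) * (T * (|u| + 1) ^ D) := by
          rw [sum_const, card_range, nsmul_eq_mul]
      _ ≤ (D + 1) * (T * (|u| + 1) ^ D) := by
          apply mul_le_mul_of_nonneg_right _ (by positivity)
          push_cast
          have : (f.natDegree : ℝ) ≤ D := by exact_mod_cast hfD
          linarith
  have hAN : A / N ≤ 20 * (N : ℝ) ^ (c - 1) := by
    have e1 : (N : ℝ) ^ (c - 1) = T / N := by rw [Real.rpow_sub hN0, Real.rpow_one, hT]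
    rw [e1, ← mul_div_assoc]
    exact div_le_div_of_nonneg_right hAT.le hN0.le
  have hsmall : A / N ≤ 1 := by
    rw [div_le_one hN0]
    have e1 : T * T ≤ N := by
      calc T * T = (N : ℝ) ^ (c + c) := by rw [hT, ← Real.rpow_add hN0]
        _ ≤ (N : ℝ) ^ (1 : ℝ) := Real.rpow_le_rpow_of_exponent_le hN1' (by linarith)
        _ = N := Real.rpow_one _
    nlinarith
  have hp : |(p : ℝ)| ≤ T ^ 3 := by
    have e1 : |(p : ℝ)| ≤ q * |aeval u f| + 1 := by
      have t1 : |(q : ℝ) * aeval u f| = q * |aeval u f| := by rw [abs_mul, Nat.abs_cast]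
      have t2 := abs_sub_abs_le_abs_sub (p : ℝ) ((q : ℝ) * aeval u f)
      rw [abs_sub_comm, t1] at t2
      linarith
    have e2 : q * |aeval u f| ≤ 20 * T * ((D + 1) * (T * (|u| + 1) ^ D)) :=
      mul_le_mul hqT.le hfu (abs_nonneg _) (by positivity)
    have e3 : 20 * T * ((D + 1) * (T * (|u| + 1) ^ D)) = (K / 5) * (T * T) := by
      rw [hK]; ring
    have e4 : K * (T * T) ≤ T * (T * T) := mul_le_mul_of_nonneg_right hNK (by positivity)
    have t1 : 100 ≤ T := hK1.trans hNK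
    have e5 : (1 : ℝ) ≤ T * T := by nlinarith
    have e6 : T * T ≤ T * (T * T) / 100 := by
      have := mul_le_mul_of_nonneg_right t1 (show (0 : ℝ) ≤ T * T by positivity)
      linarith
    have e7 : T ^ 3 = T * (T * T) := by ring
    rw [e3] at e2
    rw [e7]
    linarith
  have hT4 : T ^ 4 = (N : ℝ) ^ (4 * c) := by
    rw [hT, ← Real.rpow_natCast, ← Real.rpow_mul hN0.le]
    norm_num
    ring_nf
  refine ⟨P, ?_, ?_, ?_, ?_⟩
  · intro h0
    rw [h0, natDegree_zero] at hPdeg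
    omega
  · omega
  · intro k
    rw [← hT4, hP, coeff_sub, coeff_C_mul, coeff_C]
    push_cast
    rw [sub_eq_add_neg]
    refine (abs_add_le _ _).trans ?_
    rw [abs_neg]
    have e1 : |((q : ℝ) * (f.coeff k : ℝ))| ≤ 20 * T * T := by
      rw [abs_mul, Nat.abs_cast]
      exact mul_le_mul hqT.le (hfc k) (abs_nonneg _) (by positivity)
    have e2 : |(if k = 0 then (p : ℝ) else 0)| ≤ T ^ 3 := by
      split_ifs
      · exact hp
      · simp; positivity
    have e3 : 20 * T * T + T ^ 3 ≤ T ^ 4 := by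
      have t1 : 100 ≤ T := by linarith
      have t2 : 0 ≤ T ^ 3 := by positivity
      have t3 : T ^ 4 = T * T ^ 3 := by ring
      have t4 : 20 * T * T ≤ T ^ 3 := by nlinarith [mul_pos hT0 hT0]
      nlinarith
    calc _ ≤ 20 * T * T + T ^ 3 := add_le_add e1 e2
      _ ≤ _ := e3
  · rw [hPu]
    exact hqp.trans hAN

/-- **At every scale one of two jointly non-approximable numbers is good.** -/
theorem joint_good (u v : ℝ) (h : JointR u v) (D : ℕ) :
    ∃ c : ℝ, 0 < c ∧ ∃ N₀ : ℕ, ∀ N : ℕ, N₀ ≤ N → Good D c N u ∨ Good D c N v := by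
  obtain ⟨κ, C, hκ, hC, hj⟩ := h D
  set c : ℝ := 1 / (4 * (1 + 4 * κ)) with hc
  have hc0 : 0 < c := by positivity
  have hc1 : c ≤ 1 / 4 := by
    rw [hc]
    apply one_div_le_one_div_of_le (by norm_num)
    linarith
  have hcκ : 4 * c * κ ≤ 1 / 4 := by
    rw [hc]
    have : 4 * (1 / (4 * (1 + 4 * κ))) * κ = κ / (1 + 4 * κ) := by field_simp
    rw [this, div_le_iff₀ (by positivity)]
    linarith
  obtain ⟨N₁, hN₁⟩ := near_of_bad D u c hc0 hc1
  obtain ⟨N₂, hN₂⟩ := near_of_bad D v c hc0 hc1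
  have ht : Tendsto (fun N : ℕ => (N : ℝ) ^ ((1 : ℝ) / 4)) atTop atTop :=
    (tendsto_rpow_atTop (by norm_num)).comp tendsto_natCast_atTop_atTop
  obtain ⟨N₃, hN₃⟩ := eventually_atTop.mp (ht.eventually_gt_atTop (20 / C))
  refine ⟨c, hc0, max (max N₁ N₂) (max N₃ 1), fun N hN => ?_⟩
  have hNa : N₁ ≤ N := (le_max_left _ _).trans ((le_max_left _ _).trans hN)
  have hNb : N₂ ≤ N := (le_max_right _ _).trans ((le_max_left _ _).trans hN)
  have hNc : N₃ ≤ N := (le_max_left _ _).trans ((le_max_right _ _).trans hN)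
  have hNd : 1 ≤ N := (le_max_right _ _).trans ((le_max_right _ _).trans hN)
  have hN0 : (0 : ℝ) < N := by exact_mod_cast hNd
  have hN1' : (1 : ℝ) ≤ N := by exact_mod_cast hNd
  by_contra hcon
  push Not at hcon
  obtain ⟨P, hP0, hPD, hPc, hPu⟩ := hN₁ N hNa hcon.1
  obtain ⟨Q, hQ0, hQD, hQc, hQu⟩ := hN₂ N hNb hcon.2
  have h1 := hj P Q hP0 hQ0 hPD hQD _ hPc hQc
  have h2 : C * ((N : ℝ) ^ (4 * c)) ^ (-κ) ≤ 20 * (N : ℝ) ^ (c - 1) := h1.trans (max_le hPu hQu)
  have h3 : ((N : ℝ) ^ (4 * c)) ^ (-κ) = (N : ℝ) ^ (-(4 * c * κ)) := by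
    rw [← Real.rpow_mul hN0.le]; ring_nf
  rw [h3] at h2
  have h4 : (N : ℝ) ^ (-(1 : ℝ) / 4) ≤ (N : ℝ) ^ (-(4 * c * κ)) :=
    Real.rpow_le_rpow_of_exponent_le hN1' (by linarith)
  have h5 : (N : ℝ) ^ (c - 1) ≤ (N : ℝ) ^ (-(1 : ℝ) / 2) :=
    Real.rpow_le_rpow_of_exponent_le hN1' (by linarith)
  have h6 : C * (N : ℝ) ^ (-(1 : ℝ) / 4) ≤ 20 * (N : ℝ) ^ (-(1 : ℝ) / 2) := by
    have := mul_le_mul_of_nonneg_left h4 hC.le
    linarith
  have h7 : (N : ℝ) ^ (-(1 : ℝ) / 4) = (N : ℝ) ^ ((1 : ℝ) / 4) * (N : ℝ) ^ (-(1 : ℝ) / 2) := by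
    rw [← Real.rpow_add hN0]; norm_num
  rw [h7, ← mul_assoc] at h6
  have h8 : (0 : ℝ) < (N : ℝ) ^ (-(1 : ℝ) / 2) := by positivity
  have h9 : C * (N : ℝ) ^ ((1 : ℝ) / 4) ≤ 20 := le_of_mul_le_mul_right h6 h8
  have h10 : 20 / C < (N : ℝ) ^ ((1 : ℝ) / 4) := hN₃ N hNc
  rw [div_lt_iff₀ hC] at h10
  linarith

/-- Finite families: at every scale all members but at most one are good. -/
theorem family_good {ι : Type*} (S : Finset ι) (v : ι → ℝ)
    (h : ∀ i ∈ S, ∀ j ∈ S, i ≠ j → JointR (v i) (v j)) (D : ℕ) :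
    ∃ c : ℝ, 0 < c ∧ ∃ N₀ : ℕ, ∀ N : ℕ, N₀ ≤ N → ∀ i ∈ S, ∀ j ∈ S, i ≠ j →
      Good D c N (v i) ∨ Good D c N (v j) := by
  classical
  have key : ∀ T : Finset (ι × ι), (∀ p ∈ T, JointR (v p.1) (v p.2)) →
      ∃ c : ℝ, 0 < c ∧ ∃ N₀ : ℕ, ∀ N : ℕ, N₀ ≤ N → ∀ p ∈ T,
        Good D c N (v p.1) ∨ Good D c N (v p.2) := by
    intro T
    induction T using Finset.induction_on with
    | empty => intro _; exact ⟨1, one_pos, 0, fun N _ p hp => absurd hp (notMem_empty p)⟩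
    | insert p T hp ih =>
      intro hT
      obtain ⟨c₁, hc₁, N₁, h₁⟩ := ih fun q hq => hT q (mem_insert_of_mem hq)
      obtain ⟨c₂, hc₂, N₂, h₂⟩ := joint_good _ _ (hT p (mem_insert_self p T)) D
      refine ⟨min c₁ c₂, lt_min hc₁ hc₂, max (max N₁ N₂) 1, fun N hN q hq => ?_⟩
      have hNa : N₁ ≤ N := (le_max_left _ _).trans ((le_max_left _ _).trans hN)
      have hNb : N₂ ≤ N := (le_max_right _ _).trans ((le_max_left _ _).trans hN)
      have hNd : 1 ≤ N := (le_max_right _ _).trans hN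
      rcases mem_insert.mp hq with rfl | hq
      · rcases h₂ N hNb with h | h
        · exact Or.inl (h.mono hNd (min_le_right _ _))
        · exact Or.inr (h.mono hNd (min_le_right _ _))
      · rcases h₁ N hNa q hq with h | h
        · exact Or.inl (h.mono hNd (min_le_left _ _))
        · exact Or.inr (h.mono hNd (min_le_left _ _))
  obtain ⟨c, hc, N₀, hN₀⟩ := key ((S ×ˢ S).filter fun p => p.1 ≠ p.2) (by
    intro p hp
    rw [mem_filter, mem_product] at hp
    exact h _ hp.1.1 _ hp.1.2 hp.2)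
  refine ⟨c, hc, N₀, fun N hN i hi j hj hij => ?_⟩
  exact hN₀ N hN (i, j) (by
    rw [mem_filter, mem_product]
    exact ⟨⟨hi, hj⟩, hij⟩)

end Pool.Agent.U831.JE
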