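import Pool.Agent.U831.JE.Mon

/-!
# One exceptional line of monomials at every scale
-/

set_option autoImplicit false

namespace Pool.Agent.U831.JE

open Finset Polynomial
open Pool.Agent.TH456.TM

/-- For finitely many numbers `c z^j y^k`, where `y` has a transcendence measure, at every large
scale all are good except those with `(j, k)` on one line through the origin. -/
theorem line_good (y z : ℝ) (hy0 : y ≠ 0) (hz : z ≠ 0) (hy : MeasT (y : ℂ))
    (F : Finset (ℚ × ℤ × ℤ)) (hF : ∀ f ∈ F, f.1 ≠ 0) (D : ℕ) :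
    ∃ c : ℝ, 0 < c ∧ ∃ N₀ : ℕ, ∀ N : ℕ, N₀ ≤ N → ∃ a : ℤ × ℤ, a ≠ 0 ∧ ∀ f ∈ F,
      f.2.2 * a.1 - a.2 * f.2.1 ≠ 0 → Good D c N (f.1 * z ^ f.2.1 * y ^ f.2.2) := by
  classical
  set v : ℚ × ℤ × ℤ → ℝ := fun f => f.1 * z ^ f.2.1 * y ^ f.2.2 with hv
  have key : ∀ T : Finset ((ℚ × ℤ × ℤ) × (ℚ × ℤ × ℤ)),
      (∀ p ∈ T, p.1.1 ≠ 0 ∧ p.2.1 ≠ 0 ∧ p.1.2.2 * p.2.2.1 - p.2.2.2 * p.1.2.1 ≠ 0) →
      ∃ c : ℝ, 0 < c ∧ ∃ N₀ : ℕ, ∀ N : ℕ, N₀ ≤ N → ∀ p ∈ T,
        Good D c N (v p.1) ∨ Good D c N (v p.2) := by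
    intro T
    induction T using Finset.induction_on with
    | empty => intro _; exact ⟨1, one_pos, 0, fun N _ p hp => absurd hp (notMem_empty p)⟩
    | insert p T hp ih =>
      intro hT
      obtain ⟨c₁, hc₁, N₁, h₁⟩ := ih fun q hq => hT q (mem_insert_of_mem hq)
      obtain ⟨h1, h2, h3⟩ := hT p (mem_insert_self p T)
      obtain ⟨c₂, hc₂, N₂, h₂⟩ := joint_good (v p.1) (v p.2)
        (joint_mon y z hy0 hz hy p.1.1 p.2.1 h1 h2 _ _ _ _ h3) D
      refine ⟨min c₁ c₂, lt_min hc₁ hc₂, max (max N₁ N₂) 1, fun N hN q hq => ?_⟩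
      have hNa : N₁ ≤ N := (le_max_left _ _).trans ((le_max_left _ _).trans hN)
      have hNb : N₂ ≤ N := (le_max_right _ _).trans ((le_max_left _ _).trans hN)
      have hNd : 1 ≤ N := (le_max_right _ _).trans hN
      rcases mem_insert.mp hq with rfl | hq
      · rcases h₂ N hNb with h | h
        · exact Or.inl (h.mono hNd (min_le_right _ _))
        · exact Or.inr (h.mono hNd (min_le_right _ _))
      · rcases h₁ N hNa q hq with h | h
        · exact Or.inl (h.mono hNd (min_le_left _ _))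
        · exact Or.inr (h.mono hNd (min_le_left _ _))
  obtain ⟨c, hc, N₀, hN₀⟩ := key ((F ×ˢ F).filter fun p =>
    p.1.2.2 * p.2.2.1 - p.2.2.2 * p.1.2.1 ≠ 0) (by
    intro p hp
    rw [mem_filter, mem_product] at hp
    exact ⟨hF _ hp.1.1, hF _ hp.1.2, hp.2⟩)
  refine ⟨c, hc, N₀, fun N hN => ?_⟩
  by_cases hall : ∀ f ∈ F, f.2 ≠ 0 → Good D c N (v f)
  · refine ⟨(1, 0), by simp, fun f hf h => hall f hf ?_⟩
    intro h0
    apply h
    rw [h0]; simp
  · push Not at hall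
    obtain ⟨g, hg, hg0, hgb⟩ := hall
    refine ⟨g.2, hg0, fun f hf h => ?_⟩
    rcases hN₀ N hN (f, g) (by
      rw [mem_filter, mem_product]
      exact ⟨⟨hf, hg⟩, h⟩) with h5 | h5
    · exact h5
    · exact absurd h5 hgb

end Pool.Agent.U831.JE
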