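import Pool.Agent.U831.JE.Disc

/-!
# Discrepancy of `n α` for numbers without very good approximations
-/

set_option autoImplicit false

namespace Pool.Agent.U831.JE

open Finset

/-- If all reduced fractions `p / q` with `q ≤ X` satisfy `|q α - p| > 1 / (K q)` or
`|q α - p| ≥ 1 / L`, the counting error is at most `10 K (log₂ N + 1) + L` for all `N ≤ X`. -/
theorem err_of_type (α K L X : ℝ) (hK : 0 < K) (hL : 0 < L)
    (h : ∀ (q : ℕ) (p : ℤ), 1 ≤ q → (q : ℝ) ≤ X → IsCoprime p (q : ℤ) →
      (1 / (K * q) < |q * α - p| ∨ 1 / L ≤ |q * α - p|))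
    (u v : ℝ) (hu : 0 ≤ u) (huv : u ≤ v) (hv : v ≤ 1) :
    ∀ N : ℕ, (N : ℝ) ≤ X → ∀ γ : ℝ,
      |(cnt α γ u v N : ℝ) - (v - u) * N| ≤ 10 * K * (Nat.log 2 N + 1) + L := by
  intro N
  induction N using Nat.strong_induction_on with
  | _ N ih =>
    intro hN γ
    rcases Nat.eq_zero_or_pos N with h0 | h0
    · subst h0
      have := triv α γ u v hu huv hv 0
      have h2 : (0 : ℝ) ≤ 10 * K * ((Nat.log 2 0 : ℕ) + 1) + L := by positivity
      simp only [Nat.cast_zero] at this ⊢
      linarith
    · have hN0 : (0 : ℝ) < N := by exact_mod_cast h0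
      obtain ⟨s, hs1, hs2⟩ := Real.exists_rat_abs_sub_le_and_den_le α h0
      set q : ℕ := s.den with hqdef
      set p : ℤ := s.num with hpdef
      have hq1 : 1 ≤ q := s.den_pos
      have hq0 : (0 : ℝ) < q := by exact_mod_cast hq1
      have hcop : IsCoprime p (q : ℤ) := by
        rw [Int.isCoprime_iff_nat_coprime]
        simpa using s.reduced
      have hs : ((s : ℚ) : ℝ) = (p : ℝ) / q := by
        conv_lhs => rw [← Rat.num_div_den s]
        push_cast; rfl
      have h1 : |(q : ℝ) * α - p| ≤ 1 / (N + 1) := by
        have e1 : (q : ℝ) * α - p = q * (α - s) := by rw [hs]; field_simp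
        rw [e1, abs_mul, abs_of_pos hq0]
        calc (q : ℝ) * |α - s| ≤ q * (1 / ((N + 1) * q)) :=
              mul_le_mul_of_nonneg_left hs1 hq0.le
          _ = 1 / (N + 1) := by field_simp
      have hqN : (q : ℝ) ≤ N := by exact_mod_cast hs2
      rcases h q p hq1 (hqN.trans hN) hcop with h2 | h3
      · have h3 : 1 / (K * q) < 1 / ((N : ℝ) + 1) := h2.trans_le h1
        have h4 : (N : ℝ) + 1 < K * q := by
          rwa [div_lt_div_iff₀ (by positivity) (by positivity), one_mul, one_mul] at h3
        have hq' : |(q : ℝ) * α - p| ≤ 1 / q := by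
          refine h1.trans (one_div_le_one_div_of_le hq0 ?_)
          linarith
        have e : N = (N / q) * q + N % q := by rw [mul_comm]; exact (Nat.div_add_mod N q).symm
        have hmod : N % q < q := Nat.mod_lt N (by omega)
        have hdiv : 1 ≤ N / q := (Nat.one_le_div_iff (by omega)).mpr hs2
        have hr : 2 * (N % q) ≤ N := by
          have : q ≤ (N / q) * q := by nlinarith
          omega
        have hrN : N % q < N := by omega
        have h5 := blocks α u v p q hq1 hcop hq' hu huv hv (N / q) γ
        have h8 : ((N / q : ℕ) : ℝ) ≤ K := by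
          have : ((N / q : ℕ) : ℝ) ≤ N / q := Nat.cast_div_le
          refine this.trans ?_
          rw [div_le_iff₀ hq0]
          linarith
        rcases Nat.eq_zero_or_pos (N % q) with h0' | h0'
        · have h6 := triv α (γ + ((N / q) * q : ℕ) * α) u v hu huv hv (N % q)
          have h7 := err_add α γ u v _ _ _ _ h5 h6
          rw [← e, h0'] at h7
          have h9 : 10 * K * 1 ≤ 10 * K * ((Nat.log 2 N : ℝ) + 1) := by
            apply mul_le_mul_of_nonneg_left _ (by positivity)
            have : (0 : ℝ) ≤ Nat.log 2 N := Nat.cast_nonneg _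
            linarith
          simp only [Nat.cast_zero] at h7
          linarith
        · have h6 := ih (N % q) hrN (le_trans (by exact_mod_cast hrN.le) hN)
            (γ + ((N / q) * q : ℕ) * α)
          have h7 := err_add α γ u v _ _ _ _ h5 h6
          rw [← e] at h7
          have h9 : (Nat.log 2 (N % q) : ℝ) + 1 ≤ Nat.log 2 N := by
            have hl : Nat.log 2 (N % q) + 1 = Nat.log 2 (2 * (N % q)) := by
              rw [mul_comm, Nat.log_mul_base (by norm_num) (by omega)]
            have hl2 : Nat.log 2 (2 * (N % q)) ≤ Nat.log 2 N := Nat.log_mono_right hr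
            have : Nat.log 2 (N % q) + 1 ≤ Nat.log 2 N := by omega
            exact_mod_cast this
          have h10 : 10 * K * ((Nat.log 2 (N % q) : ℝ) + 1) ≤ 10 * K * Nat.log 2 N :=
            mul_le_mul_of_nonneg_left h9 (by positivity)
          calc _ ≤ _ := h7
            _ ≤ 10 * K + (10 * K * Nat.log 2 N + L) := by linarith
            _ = _ := by ring
      · -- the exceptional case
        have h4 : 1 / L ≤ 1 / ((N : ℝ) + 1) := h3.trans h1
        have h5 : (N : ℝ) + 1 ≤ L := by
          rwa [div_le_div_iff₀ hL (by positivity), one_mul, one_mul] at h4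
        have h6 := triv α γ u v hu huv hv N
        have h7 : (0 : ℝ) ≤ 10 * K * ((Nat.log 2 N : ℕ) + 1) := by positivity
        linarith

end Pool.Agent.U831.JE
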